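import Pool.Agent.V11163.LF.Net

/-!
# Subsets of `(G ^ n) ^ 2` recognized by tree tensor networks
-/

set_option autoImplicit false

open Finset

namespace Pool.Agent.V11163.LF

open Pool.Agent.TH700.PA

variable {G : Type} [AddCommGroup G]

/-- `A ⊆ H × H` contains no nontrivial corner `(x, y), (x, y + z), (x + z, y)`, `z ≠ 0`. -/
def CornerFree {H : Type} [AddCommGroup H] (A : Set (H × H)) : Prop :=
  ∀ x y z : H, (x, y) ∈ A → (x, y + z) ∈ A → (x + z, y) ∈ A → z = 0

open Classical in
/-- The vector with the coordinates `g` on `S` and `0` elsewhere. -/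
noncomputable def sup {n : ℕ} (S : Finset (Fin n)) (g : G) : Fin n → G :=
  fun i => if i ∈ S then g else 0

/-- `A` does not contain all points `(x + a_1 v_1 + ... + a_m v_m, y + b_1 v_1 + ... + b_m v_m)`, with
`a_j, b_j ∈ G`, for any points `x, y` and indicator vectors `v_j` of nonempty disjoint sets of
coordinates. -/
def NoPattern (m : ℕ) {n : ℕ} (A : Set ((Fin n → G) × (Fin n → G))) : Prop :=
  ∀ (x y : Fin n → G) (S : Fin m → Finset (Fin n)), (∀ j, (S j).Nonempty) →
    (∀ i j, i ≠ j → Disjoint (S i) (S j)) →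
    ∃ a b : Fin m → G, (x + ∑ j, sup (S j) (a j), y + ∑ j, sup (S j) (b j)) ∉ A

/-- The words of pairs of coordinates of the elements of `A`. -/
def Pairs {G : Type} {n : ℕ} (A : Set ((Fin n → G) × (Fin n → G))) : Set (Fin n → G × G) :=
  {z | (fun i => (z i).1, fun i => (z i).2) ∈ A}

theorem sfree_of_noPattern {m n : ℕ} {A : Set ((Fin n → G) × (Fin n → G))} (h : NoPattern m A) :
    SFree m (Pairs A) := by
  classical
  intro U hU
  obtain ⟨S, hS⟩ : ∃ S : Fin m → Finset (Fin n), ∀ j v, v ∈ S j ↔ U v = Sum.inr j :=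
    ⟨fun j => univ.filter fun i => U i = Sum.inr j, by simp⟩
  obtain ⟨a, b, hab⟩ := h (fun i => Sum.elim (fun g : G × G => g.1) (fun _ => 0) (U i))
    (fun i => Sum.elim (fun g : G × G => g.2) (fun _ => 0) (U i)) S (fun j => by
      obtain ⟨i, hi⟩ := hU j
      exact ⟨i, (hS j i).2 hi⟩) (fun i j hij => by
      rw [disjoint_left]
      intro v hv hv'
      rw [hS] at hv hv'
      exact hij (Sum.inr_injective (hv.symm.trans hv')))
  refine ⟨fun j => (a j, b j), fun h' => hab ?_⟩
  have key : ∀ (c : Fin m → G) (i : Fin n), (∑ j, sup (S j) (c j)) i =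
      Sum.elim (fun _ => 0) c (U i) := by
    intro c i
    rw [Finset.sum_apply]
    have hterm : ∀ j, sup (S j) (c j) i = if U i = Sum.inr j then c j else 0 := by
      intro j
      unfold sup
      simp only [hS]
    simp only [hterm]
    rcases hi : U i with g | j
    · simp
    · simp
  have e : ((fun i => Sum.elim (fun g : G × G => g.1) (fun _ => 0) (U i)) +
      ∑ j, sup (S j) (a j), (fun i => Sum.elim (fun g : G × G => g.2) (fun _ => 0) (U i)) +
      ∑ j, sup (S j) (b j)) =
      ((fun i => (Sum.elim id (fun j => (a j, b j)) (U i)).1),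
        (fun i => (Sum.elim id (fun j => (a j, b j)) (U i)).2)) := by
    refine Prod.ext ?_ ?_
    · funext i
      show (_ + (∑ j, sup (S j) (a j)) i : G) = _
      rw [key]
      rcases hi : U i with g | j
      · simp [hi]
      · simp [hi]
    · funext i
      show (_ + (∑ j, sup (S j) (b j)) i : G) = _
      rw [key]
      rcases hi : U i with g | j
      · simp [hi]
      · simp [hi]
  rw [e]
  exact h'

theorem noPattern_of_cornerFree [Nontrivial G] {n : ℕ} {A : Set ((Fin n → G) × (Fin n → G))}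
    (h : CornerFree A) : NoPattern 1 A := by
  classical
  intro x y S hS _
  by_contra hcon
  push Not at hcon
  obtain ⟨g, hg⟩ := exists_ne (0 : G)
  have e0 : sup (S 0) (0 : G) = 0 := by
    funext i
    unfold sup
    simp
  have h0 := hcon (fun _ => 0) (fun _ => 0)
  have h1 := hcon (fun _ => 0) (fun _ => g)
  have h2 := hcon (fun _ => g) (fun _ => 0)
  simp only [Fin.sum_univ_one, e0, add_zero] at h0 h1 h2
  have h3 := h x y (sup (S 0) g) h0 h1 h2
  obtain ⟨i, hi⟩ := hS 0
  have h4 := congrFun h3 i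
  unfold sup at h4
  rw [if_pos hi] at h4
  exact hg h4

omit [AddCommGroup G] in
theorem card_pairs {n : ℕ} (A : Set ((Fin n → G) × (Fin n → G))) :
    Nat.card A = Nat.card (Pairs A) := by
  refine Nat.card_congr
    ⟨fun p => ⟨fun i => (p.1.1 i, p.1.2 i), p.2⟩, fun z => ⟨(fun i => (z.1 i).1, fun i => (z.1 i).2),
      z.2⟩, fun p => ?_, fun z => ?_⟩
  · rfl
  · rfl

theorem pairs_le (G : Type) [AddCommGroup G] [Fintype G] [Nontrivial G] (m w : ℕ) :
    ∃ c C : ℝ, 0 < c ∧ 0 < C ∧ ∀ (n M : ℕ) (A : Set ((Fin n → G) × (Fin n → G)))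
      (B : Fin M → Set ((Fin n → G) × (Fin n → G))), NoPattern m A →
      (∀ x, x ∈ A ↔ ∃ i, x ∈ B i) → (∀ i, Recog w (Pairs (B i))) →
      (Nat.card A : ℝ) ≤ C * M * ((Fintype.card G : ℝ) ^ (2 * n)) ^ (1 - c) := by
  classical
  obtain ⟨c, C, hc, hC, h⟩ := net_real (G × G) m w
  refine ⟨c, C, hc, hC, fun n M A B hA hAB hB => ?_⟩
  have h1 := h (Fin n) M (Pairs A).toFinset (fun i => Pairs (B i)) (by
    rw [Set.coe_toFinset]
    exact sfree_of_noPattern hA) (fun z => by
    rw [Set.mem_toFinset]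
    exact hAB _) hB
  rw [Fintype.card_prod, Fintype.card_fin, Set.toFinset_card, ← Nat.card_eq_fintype_card,
    ← card_pairs] at h1
  have e : ((Fintype.card G * Fintype.card G : ℕ) : ℝ) ^ n = (Fintype.card G : ℝ) ^ (2 * n) := by
    push_cast
    rw [pow_mul, sq]
  rwa [e] at h1

end Pool.Agent.V11163.LF
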