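import Pool.Agent.H602R3.DHJ.Main
import Pool.Agent.TH700.PA.Parts

/-!
# Sets of words of bounded rank without combinatorial subspaces
-/

set_option autoImplicit false

open Finset

namespace Pool.Agent.V11163.LF

open Pool.Agent.TH700.PA
open Pool.Agent.H602R3.DHJ (ap Pr dn av MD MD_of_D D D_equiv dhj)

/-- `S` contains no combinatorial subspace of dimension `m`. -/
def SFree {V α : Type} (m : ℕ) (S : Set (V → α)) : Prop :=
  ∀ U : V → α ⊕ Fin m, (∀ j, ∃ i, U i = Sum.inr j) →
    ∃ x : Fin m → α, (fun i => Sum.elim id x (U i)) ∉ S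

theorem dn_finset {X : Type} [Fintype X] (A : Finset X) :
    dn (A : Set X) = (A.card : ℝ) / Fintype.card X := by
  classical
  unfold dn av
  congr 1
  rw [← sum_subset (subset_univ A)]
  · rw [sum_congr rfl fun x hx => Set.indicator_of_mem (by simpa using hx) _]
    simp
  · intro x _ hx
    rw [Set.indicator_of_notMem]
    simpa using hx

/-- The density Hales-Jewett theorem, multidimensional form. -/
theorem dhj_card (α : Type) [Fintype α] [Nonempty α] (m M : ℕ) (hM : 1 ≤ M) :
    ∃ N : ℕ, ∀ (ι : Type) [Fintype ι] [DecidableEq ι], N ≤ Fintype.card ι →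
      ∀ A : Finset (ι → α), SFree m (A : Set (ι → α)) → M * A.card ≤ Fintype.card (ι → α) := by
  classical
  have hD : D α := by
    obtain ⟨k, hk⟩ : ∃ k, Fintype.card α = k + 1 :=
      ⟨Fintype.card α - 1, by have := Fintype.card_pos (α := α); omega⟩
    exact D_equiv (Fintype.equivFinOfCardEq hk).symm (dhj k)
  have hM0 : (0 : ℝ) < M := by exact_mod_cast hM
  obtain ⟨N, hN⟩ := MD_of_D hD m (1 / M) (by positivity)
  refine ⟨N, fun ι _ _ hι A hA => ?_⟩
  by_contra hcon
  push Not at hcon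
  have hpos : (0 : ℝ) < Fintype.card (ι → α) := by exact_mod_cast Fintype.card_pos
  obtain ⟨U, hU, hUA⟩ := hN ι hι (A : Set (ι → α)) (by
    rw [dn_finset, div_le_div_iff₀ hM0 hpos]
    have : (Fintype.card (ι → α) : ℝ) ≤ M * A.card := by exact_mod_cast hcon.le
    linarith)
  obtain ⟨x, hx⟩ := hA U hU
  exact hx (hUA x)

variable {V α K : Type} [Fintype V] [DecidableEq V] [Fintype α]

/-- The number of the words whose restriction to `P` is in `A`. -/
theorem cyl_card (P : Finset V) (A : Finset ({v // v ∈ P} → α)) (Z : Finset (V → α))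
    (hZ : ∀ x ∈ Z, (fun v : {v // v ∈ P} => x v.1) ∈ A) :
    Z.card * Fintype.card ({v // v ∈ P} → α) ≤ A.card * Fintype.card (V → α) := by
  classical
  have h1 : Fintype.card (V → α) =
      Fintype.card ({v // v ∈ P} → α) * Fintype.card ({v // v ∉ P} → α) := by
    rw [← Fintype.card_prod]
    exact Fintype.card_congr (Equiv.piEquivPiSubtypeProd (fun v => v ∈ P) (fun _ => α))
  have h2 : Z.card ≤ A.card * Fintype.card ({v // v ∉ P} → α) := by
    rw [← card_univ (α := {v // v ∉ P} → α), ← card_product]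
    refine card_le_card_of_injOn (fun x => (fun v => x v.1, fun v => x v.1)) ?_ ?_
    · intro x hx
      rw [mem_coe] at hx
      rw [mem_coe, mem_product]
      exact ⟨hZ x hx, mem_univ _⟩
    · intro x _ x' _ he
      funext v
      by_cases hv : v ∈ P
      · exact congrFun (congrArg Prod.fst he) ⟨v, hv⟩
      · exact congrFun (congrArg Prod.snd he) ⟨v, hv⟩
  rw [h1]
  calc Z.card * Fintype.card ({v // v ∈ P} → α)
      ≤ A.card * Fintype.card ({v // v ∉ P} → α) * Fintype.card ({v // v ∈ P} → α) :=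
        Nat.mul_le_mul_right _ h2
    _ = A.card * (Fintype.card ({v // v ∈ P} → α) * Fintype.card ({v // v ∉ P} → α)) := by
        rw [mul_assoc, mul_comm (Fintype.card ({v // v ∉ P} → α))]

/-- Sets without subspaces, with the values outside `P` fixed. -/
theorem fibre [Nonempty α] {m M N : ℕ}
    (hN : ∀ (ι : Type) [Fintype ι] [DecidableEq ι], N ≤ Fintype.card ι →
      ∀ A : Finset (ι → α), SFree m (A : Set (ι → α)) → M * A.card ≤ Fintype.card (ι → α))
    {S : Set (V → α)} (hS : SFree m S) {P : Finset V} (hP : N ≤ P.card) (y : V → α)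
    (Z : Finset (V → α)) (hZ : ∀ x ∈ Z, mix P x y ∈ S) :
    M * Z.card ≤ Fintype.card (V → α) := by
  classical
  obtain ⟨A, hA⟩ : ∃ A : Finset ({v // v ∈ P} → α), ∀ u, u ∈ A ↔
      (fun v => if h : v ∈ P then u ⟨v, h⟩ else y v) ∈ S :=
    ⟨univ.filter fun u => (fun v => if h : v ∈ P then u ⟨v, h⟩ else y v) ∈ S, by simp⟩
  have h1 : SFree m (A : Set ({v // v ∈ P} → α)) := by
    intro U hU
    obtain ⟨x, hx⟩ := hS (fun v => if h : v ∈ P then U ⟨v, h⟩ else Sum.inl (y v)) (by
      intro j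
      obtain ⟨i, hi⟩ := hU j
      refine ⟨i.1, ?_⟩
      rw [dif_pos i.2]
      exact hi)
    refine ⟨x, fun h => hx ?_⟩
    rw [mem_coe, hA] at h
    have e : (fun i => Sum.elim id x (if h : i ∈ P then U ⟨i, h⟩ else Sum.inl (y i))) =
        fun v => if h : v ∈ P then (fun i => Sum.elim id x (U i)) (⟨v, h⟩ : {v // v ∈ P})
          else y v := by
      funext v
      by_cases hv : v ∈ P
      · simp only [dif_pos hv]
      · simp only [dif_neg hv]
        rfl
    rw [e]
    exact h
  have h2 := hN {v // v ∈ P} (by rwa [Fintype.card_coe]) A h1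
  have h3 := cyl_card P A Z (fun x hx => by
    rw [hA]
    have e : mix P x y = fun v => if h : v ∈ P then x v else y v := by
      funext v
      unfold mix
      by_cases hv : v ∈ P
      · rw [if_pos hv, dif_pos hv]
      · rw [if_neg hv, dif_neg hv]
    have h4 := hZ x hx
    rw [e] at h4
    exact h4)
  have hpos : 0 < Fintype.card ({v // v ∈ P} → α) := Fintype.card_pos
  refine Nat.le_of_mul_le_mul_right ?_ hpos
  calc M * Z.card * Fintype.card ({v // v ∈ P} → α)
      = M * (Z.card * Fintype.card ({v // v ∈ P} → α)) := by rw [mul_assoc]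
    _ ≤ M * (A.card * Fintype.card (V → α)) := Nat.mul_le_mul_left _ h3
    _ = (M * A.card) * Fintype.card (V → α) := by rw [mul_assoc]
    _ ≤ Fintype.card ({v // v ∈ P} → α) * Fintype.card (V → α) := Nat.mul_le_mul_right _ h2
    _ = Fintype.card (V → α) * Fintype.card ({v // v ∈ P} → α) := by rw [mul_comm]

theorem cyl_le [Nonempty α] [Field K] {m s d N : ℕ} (hd : 1 ≤ d)
    (hN : ∀ (ι : Type) [Fintype ι] [DecidableEq ι], N ≤ Fintype.card ι →
      ∀ A : Finset (ι → α), SFree m (A : Set (ι → α)) → (d * s) * A.card ≤ Fintype.card (ι → α))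
    {f : (V → α) → K} (hS : SFree m {z | f z ≠ 0}) {P : Finset V} (hP : N ≤ P.card)
    (hR : Rk d f P) (X : Finset (V → α)) (hX : ∀ x ∈ X, ∃ z, f z ≠ 0 ∧ ∀ v ∈ P, z v = x v) :
    s * X.card ≤ Fintype.card (V → α) := by
  classical
  obtain ⟨J, _, y, c, hJ, -, hf⟩ := interp (rk_compl hR)
  obtain ⟨B, hB⟩ : ∃ B : J → Finset (V → α), ∀ j x, x ∈ B j ↔ mix P x (y j) ∈ {z | f z ≠ 0} :=
    ⟨fun j => univ.filter fun x => mix P x (y j) ∈ {z | f z ≠ 0}, by simp⟩
  have h1 : X ⊆ univ.biUnion B := by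
    intro x hx
    obtain ⟨z, hz, hzx⟩ := hX x hx
    have h2 : ∃ j, f (mix Pᶜ (y j) z) ≠ 0 := by
      by_contra hcon
      push Not at hcon
      apply hz
      rw [hf z]
      exact sum_eq_zero fun j _ => by rw [hcon j, mul_zero]
    obtain ⟨j, hj⟩ := h2
    rw [mem_biUnion]
    refine ⟨j, mem_univ _, ?_⟩
    rw [hB]
    have h3 : mix P x (y j) = mix Pᶜ (y j) z := by
      funext v
      unfold mix
      by_cases hv : v ∈ P
      · rw [if_pos hv, if_neg (by simpa using hv), hzx v hv]
      · rw [if_neg hv, if_pos (by simpa using hv)]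
    show f (mix P x (y j)) ≠ 0
    rw [h3]
    exact hj
  refine Nat.le_of_mul_le_mul_left ?_ (show 0 < d by omega)
  calc d * (s * X.card) = (d * s) * X.card := by ring
    _ ≤ (d * s) * ∑ j : J, (B j).card :=
        Nat.mul_le_mul_left _ ((card_le_card h1).trans card_biUnion_le)
    _ = ∑ j : J, (d * s) * (B j).card := by rw [mul_sum]
    _ ≤ ∑ _j : J, Fintype.card (V → α) := sum_le_sum fun j _ =>
        fibre hN hS hP (y j) (B j) fun x hx => (hB j x).1 hx
    _ = Fintype.card J * Fintype.card (V → α) := by rw [sum_const, card_univ, smul_eq_mul]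
    _ ≤ d * Fintype.card (V → α) := Nat.mul_le_mul_right _ hJ

/-- Independence of the values on `P` and outside. -/
theorem indep (P : Finset V) (X Y : Finset (V → α))
    (hX : ∀ x x' : V → α, (∀ v ∈ P, x v = x' v) → x ∈ X → x' ∈ X)
    (hY : ∀ x x' : V → α, (∀ v, v ∉ P → x v = x' v) → x ∈ Y → x' ∈ Y)
    (Z : Finset (V → α)) (hZ : ∀ x ∈ Z, x ∈ X ∧ x ∈ Y) :
    Z.card * Fintype.card (V → α) ≤ X.card * Y.card := by
  classical
  rw [← card_univ, ← card_product, ← card_product]
  refine card_le_card_of_injOn (fun q => (mix P q.1 q.2, mix P q.2 q.1)) ?_ ?_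
  · intro q hq
    rw [mem_coe, mem_product] at hq
    rw [mem_coe, mem_product]
    have h := hZ q.1 hq.1
    refine ⟨hX q.1 _ (fun v hv => ?_) h.1, hY q.1 _ (fun v hv => ?_) h.2⟩
    · show q.1 v = mix P q.1 q.2 v
      unfold mix
      rw [if_pos hv]
    · show q.1 v = mix P q.2 q.1 v
      unfold mix
      rw [if_neg hv]
  · rintro ⟨x, y⟩ _ ⟨x', y'⟩ _ he
    have h1 := congrArg Prod.fst he
    have h2 := congrArg Prod.snd he
    simp only at h1 h2
    have h3 : ∀ v, x v = x' v ∧ y v = y' v := by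
      intro v
      have e1 := congrFun h1 v
      have e2 := congrFun h2 v
      unfold mix at e1 e2
      by_cases hv : v ∈ P
      · rw [if_pos hv, if_pos hv] at e1
        rw [if_pos hv, if_pos hv] at e2
        exact ⟨e1, e2⟩
      · rw [if_neg hv, if_neg hv] at e1
        rw [if_neg hv, if_neg hv] at e2
        exact ⟨e2, e1⟩
    refine Prod.ext ?_ ?_
    · funext v; exact (h3 v).1
    · funext v; exact (h3 v).2

theorem inter_le [Nonempty α] {κ : Type} {s : ℕ} (P : κ → Finset V) (X : κ → Finset (V → α))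
    (hX : ∀ j, ∀ x x' : V → α, (∀ v ∈ P j, x v = x' v) → x ∈ X j → x' ∈ X j)
    (hP : ∀ i j, i ≠ j → Disjoint (P i) (P j)) (I : Finset κ)
    (hs : ∀ j ∈ I, s * (X j).card ≤ Fintype.card (V → α)) :
    ∀ Z : Finset (V → α), (∀ x ∈ Z, ∀ j ∈ I, x ∈ X j) →
      s ^ I.card * Z.card ≤ Fintype.card (V → α) := by
  classical
  induction I using Finset.induction_on with
  | empty =>
    intro Z _
    simpa using card_le_univ Z
  | insert i I hi ih =>
    intro Z hZ
    have hpos : 0 < Fintype.card (V → α) := Fintype.card_pos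
    obtain ⟨Y, hY⟩ : ∃ Y : Finset (V → α), ∀ x, x ∈ Y ↔ ∀ j ∈ I, x ∈ X j :=
      ⟨univ.filter fun x => ∀ j ∈ I, x ∈ X j, by simp⟩
    have h1 := ih (fun j hj => hs j (mem_insert_of_mem hj)) Y (fun x hx => (hY x).1 hx)
    have h2 := hs i (mem_insert_self _ _)
    have h3 := indep (P i) (X i) Y (hX i) (by
      intro x x' hxx hx
      rw [hY] at hx ⊢
      intro j hj
      refine hX j x x' (fun v hv => hxx v fun hv' => ?_) (hx j hj)
      have hne : i ≠ j := fun h => hi (h ▸ hj)
      exact (Finset.disjoint_left.1 (hP i j hne)) hv' hv) Z (fun x hx =>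
        ⟨hZ x hx i (mem_insert_self _ _), (hY x).2 fun j hj => hZ x hx j (mem_insert_of_mem hj)⟩)
    rw [card_insert_of_notMem hi]
    refine Nat.le_of_mul_le_mul_right ?_ hpos
    calc s ^ (I.card + 1) * Z.card * Fintype.card (V → α)
        = s ^ (I.card + 1) * (Z.card * Fintype.card (V → α)) := by ring
      _ ≤ s ^ (I.card + 1) * ((X i).card * Y.card) := Nat.mul_le_mul_left _ h3
      _ = (s * (X i).card) * (s ^ I.card * Y.card) := by ring
      _ ≤ Fintype.card (V → α) * Fintype.card (V → α) := Nat.mul_le_mul h2 h1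

/-- **The block theorem.** A set of words without combinatorial subspaces of dimension `m` is small if
there are many disjoint blocks of at least `N` positions for which the function `f` has small rank. -/
theorem blocks (α : Type) [Fintype α] [Nonempty α] (m d s : ℕ) (hd : 1 ≤ d) (hs : 1 ≤ s) :
    ∃ N : ℕ, 1 ≤ N ∧ ∀ (V K : Type) [Fintype V] [DecidableEq V] [Field K] (f : (V → α) → K)
      (κ : Type) (P : κ → Finset V) (I : Finset κ), (∀ i j, i ≠ j → Disjoint (P i) (P j)) →
      (∀ j ∈ I, N ≤ (P j).card) → (∀ j ∈ I, Rk d f (P j)) → SFree m {z | f z ≠ 0} →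
      ∀ Z : Finset (V → α), (∀ x ∈ Z, f x ≠ 0) → s ^ I.card * Z.card ≤ Fintype.card (V → α) := by
  obtain ⟨N, hN⟩ := dhj_card α m (d * s) (Nat.mul_pos hd hs)
  refine ⟨N + 1, by omega, ?_⟩
  intro V K _ _ _ f κ P I hdis hcard hR hS Z hZ
  classical
  obtain ⟨X, hX⟩ : ∃ X : κ → Finset (V → α), ∀ j x, x ∈ X j ↔
      ∃ z, f z ≠ 0 ∧ ∀ v ∈ P j, z v = x v :=
    ⟨fun j => univ.filter fun x => ∃ z, f z ≠ 0 ∧ ∀ v ∈ P j, z v = x v, by simp⟩
  refine inter_le P X ?_ hdis I ?_ Z ?_
  · intro j x x' hxx hx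
    rw [hX] at hx ⊢
    obtain ⟨z, hz, hzx⟩ := hx
    exact ⟨z, hz, fun v hv => (hzx v hv).trans (hxx v hv)⟩
  · intro j hj
    exact cyl_le hd hN hS (by have := hcard j hj; omega) (hR j hj) (X j)
      fun x hx => (hX j x).1 hx
  · intro x hx j _
    rw [hX]
    exact ⟨x, hZ x hx, fun _ _ => rfl⟩

end Pool.Agent.V11163.LF
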