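import Pool.Agent.V11163.LF.Net
import Mathlib.Combinatorics.Additive.AP.Three.Behrend

/-!
# Sets of integers whose digits are read by tree tensor networks
-/

set_option autoImplicit false

open Finset

namespace Pool.Agent.V11163.LF

open Pool.Agent.TH700.PA

/-- The integer with the digits `x i` in base `b`. -/
def val {b n : ℕ} (x : Fin n → Fin b) : ℕ := ∑ i, (x i : ℕ) * b ^ (i : ℕ)

/-- The words of `n` digits in base `b` of the elements of `A`. -/
def Words (b n : ℕ) (A : Set ℕ) : Set (Fin n → Fin b) := {x | val x ∈ A}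

/-- `A` contains no set `{a + j_1 d_1 + ... + j_m d_m : 0 ≤ j_1, ..., j_m < b}`, where each `d_i > 0` has
only the digits `0` and `1` in base `b` (at most `n` digits), with disjoint sets of digits `1`. -/
def NoGrid (m b n : ℕ) (A : Set ℕ) : Prop :=
  ∀ (a : ℕ) (S : Fin m → Finset (Fin n)), (∀ i, (S i).Nonempty) →
    (∀ i j, i ≠ j → Disjoint (S i) (S j)) →
    ∃ j : Fin m → Fin b, a + ∑ i, (j i : ℕ) * ∑ v ∈ S i, b ^ (v : ℕ) ∉ A

theorem sfree_of_noGrid {m b n : ℕ} {A : Set ℕ} (h : NoGrid m b n A) :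
    SFree m (Words b n A) := by
  classical
  intro U hU
  obtain ⟨S, hS⟩ : ∃ S : Fin m → Finset (Fin n), ∀ j v, v ∈ S j ↔ U v = Sum.inr j :=
    ⟨fun j => univ.filter fun i => U i = Sum.inr j, by simp⟩
  obtain ⟨j, hj⟩ := h (∑ v, Sum.elim (fun d : Fin b => (d : ℕ)) (fun _ => 0) (U v) * b ^ (v : ℕ)) S
    (fun j => by
      obtain ⟨i, hi⟩ := hU j
      exact ⟨i, (hS j i).2 hi⟩) (fun i j hij => by
      rw [disjoint_left]
      intro v hv hv'
      rw [hS] at hv hv'
      exact hij (Sum.inr_injective (hv.symm.trans hv')))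
  refine ⟨j, fun h' => hj ?_⟩
  have e : val (fun i => Sum.elim id j (U i)) =
      (∑ v, Sum.elim (fun d : Fin b => (d : ℕ)) (fun _ => 0) (U v) * b ^ (v : ℕ)) +
        ∑ i, (j i : ℕ) * ∑ v ∈ S i, b ^ (v : ℕ) := by
    have e1 : ∑ i, (j i : ℕ) * ∑ v ∈ S i, b ^ (v : ℕ) =
        ∑ v, Sum.elim (fun _ => 0) (fun i => (j i : ℕ)) (U v) * b ^ (v : ℕ) := by
      have e2 : ∀ i, (j i : ℕ) * ∑ v ∈ S i, b ^ (v : ℕ) =
          ∑ v, if U v = Sum.inr i then (j i : ℕ) * b ^ (v : ℕ) else 0 := by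
        intro i
        rw [mul_sum, ← sum_filter]
        refine sum_congr ?_ fun _ _ => rfl
        ext v
        rw [hS, mem_filter]
        simp
      simp only [e2]
      rw [sum_comm]
      refine sum_congr rfl fun v _ => ?_
      rcases hv : U v with d | i
      · simp
      · simp
    rw [e1, ← sum_add_distrib]
    unfold val
    refine sum_congr rfl fun v _ => ?_
    rcases hv : U v with d | i
    · simp [hv]
    · simp [hv]
  rw [← e]
  exact h'

theorem noGrid_of_threeAPFree {b n : ℕ} (hb : 3 ≤ b) {A : Set ℕ} (h : ThreeAPFree A) :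
    NoGrid 1 b n A := by
  intro a S hS _
  by_contra hcon
  push Not at hcon
  have h0 := hcon (fun _ => ⟨0, by omega⟩)
  have h1 := hcon (fun _ => ⟨1, by omega⟩)
  have h2 := hcon (fun _ => ⟨2, by omega⟩)
  simp only [Fin.sum_univ_one, zero_mul, one_mul, add_zero] at h0 h1 h2
  have h3 := h h0 h1 h2 (by ring)
  have h4 : 0 < ∑ v ∈ S 0, b ^ (v : ℕ) :=
    sum_pos (fun v _ => Nat.pow_pos (by omega)) (hS 0)
  omega

/-- Sets of integers whose digits are read by networks. -/
theorem dig_le (b m w : ℕ) (hb : 2 ≤ b) : ∃ c C : ℝ, 0 < c ∧ 0 < C ∧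
    ∀ (n M : ℕ) (A : Finset ℕ) (B : Fin M → Set ℕ), (∀ a ∈ A, a < b ^ n) →
      NoGrid m b n (A : Set ℕ) → (∀ a, a ∈ A ↔ ∃ i, a ∈ B i) →
      (∀ i, Recog w (Words b n (B i))) → (A.card : ℝ) ≤ C * M * ((b : ℝ) ^ n) ^ (1 - c) := by
  classical
  have : Nontrivial (Fin b) := Fin.nontrivial_iff_two_le.2 hb
  obtain ⟨c, C, hc, hC, h⟩ := net_real (Fin b) m w
  refine ⟨c, C, hc, hC, fun n M A B hAn hA hAB hB => ?_⟩
  have h1 := h (Fin n) M (Words b n (A : Set ℕ)).toFinset (fun i => Words b n (B i)) (by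
    rw [Set.coe_toFinset]
    exact sfree_of_noGrid hA) (fun x => by
    rw [Set.mem_toFinset]
    exact hAB (val x)) hB
  rw [Fintype.card_fin, Fintype.card_fin] at h1
  refine le_trans ?_ h1
  have h2 : A ⊆ (Words b n (A : Set ℕ)).toFinset.image val := by
    intro a ha
    rw [mem_image]
    refine ⟨finFunctionFinEquiv.symm ⟨a, hAn a ha⟩, ?_, ?_⟩
    · rw [Set.mem_toFinset]
      show val _ ∈ (A : Set ℕ)
      unfold val
      rw [← finFunctionFinEquiv_apply, Equiv.apply_symm_apply]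
      exact ha
    · unfold val
      rw [← finFunctionFinEquiv_apply, Equiv.apply_symm_apply]
  exact_mod_cast (card_le_card h2).trans card_image_le

end Pool.Agent.V11163.LF
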