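import Pool.Agent.V11163.LF.Net
import Mathlib.Data.ZMod.Basic

/-!
# Subsets of `F_p ^ n` recognized by tree tensor networks
-/

set_option autoImplicit false

open Finset

namespace Pool.Agent.V11163.LF

open Pool.Agent.TH700.PA

/-- `A` contains no nontrivial `k`-term progression `x, x + y, ..., x + (k - 1) y`, `y ≠ 0`. -/
def APFree (k : ℕ) {p n : ℕ} (A : Set (Fin n → ZMod p)) : Prop :=
  ∀ x y : Fin n → ZMod p, (∀ j : ℕ, j < k → x + j • y ∈ A) → y = 0

open Classical in
/-- The vector with the coordinates `1` on `S` and `0` elsewhere. -/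
noncomputable def ind {p n : ℕ} (S : Finset (Fin n)) : Fin n → ZMod p :=
  fun i => if i ∈ S then 1 else 0

/-- `A` contains no set of the form `{x + a_1 v_1 + ... + a_m v_m : a_j ∈ F_p}`, where the `v_j` are
the indicator vectors of nonempty disjoint sets of coordinates. -/
def NoSubspace (m : ℕ) {p n : ℕ} (A : Set (Fin n → ZMod p)) : Prop :=
  ∀ (x : Fin n → ZMod p) (S : Fin m → Finset (Fin n)), (∀ j, (S j).Nonempty) →
    (∀ i j, i ≠ j → Disjoint (S i) (S j)) →
    ∃ a : Fin m → ZMod p, x + ∑ j, a j • ind (S j) ∉ A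

theorem sfree_of_noSubspace {m p n : ℕ} {A : Set (Fin n → ZMod p)} (h : NoSubspace m A) :
    SFree m A := by
  classical
  intro U hU
  obtain ⟨a, ha⟩ := h (fun i => Sum.elim id (fun _ => 0) (U i))
    (fun j => univ.filter fun i => U i = Sum.inr j) (fun j => by
      obtain ⟨i, hi⟩ := hU j
      exact ⟨i, mem_filter.2 ⟨mem_univ _, hi⟩⟩) (fun i j hij => by
      rw [disjoint_left]
      intro v hv hv'
      rw [mem_filter] at hv hv'
      exact hij (Sum.inr_injective (hv.2.symm.trans hv'.2)))
  refine ⟨a, fun h' => ha ?_⟩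
  convert h' using 1
  funext i
  have hterm : ∀ j, (a j • (ind (univ.filter fun i => U i = Sum.inr j) : Fin n → ZMod p)) i =
      if U i = Sum.inr j then a j else 0 := by
    intro j
    simp [ind]
  rw [Pi.add_apply, Finset.sum_apply]
  simp only [hterm]
  rcases hi : U i with b | j
  · simp
  · simp

theorem noSubspace_of_apFree {k p n : ℕ} (hp : p.Prime) {A : Set (Fin n → ZMod p)}
    (h : APFree k A) : NoSubspace 1 A := by
  classical
  have : Fact p.Prime := ⟨hp⟩
  intro x S hS _
  by_contra hcon
  push Not at hcon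
  have h1 := h x (ind (S 0)) (fun j _ => by
    have h2 := hcon (fun _ => (j : ZMod p))
    rw [Fin.sum_univ_one] at h2
    convert h2 using 2
    funext i
    simp)
  obtain ⟨i, hi⟩ := hS 0
  have h3 := congrFun h1 i
  unfold ind at h3
  rw [if_pos hi] at h3
  exact one_ne_zero h3

end Pool.Agent.V11163.LF
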