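import Pool.Agent.V11163.LF.Core
import Pool.Agent.TH700.PA.Count
import Mathlib.Analysis.SpecialFunctions.Pow.Real

/-!
# Combinatorial subspaces in sets recognized by tree tensor networks
-/

set_option autoImplicit false

open Finset

namespace Pool.Agent.V11163.LF

open Pool.Agent.TH700.PA

/-- A set recognized by a tree tensor network of bounded bond dimension, without combinatorial
subspaces of dimension `m`, is exponentially small. -/
theorem net_le (α : Type) [Fintype α] [Nonempty α] (m w : ℕ) : ∃ N : ℕ, 1 ≤ N ∧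
    ∀ (V K W : Type) [Fintype V] [DecidableEq V] [Field K] [Fintype W] (T : Net K V α W)
      (c : W → K), (∀ v, T.reads v ≤ 1) → Fintype.card W ≤ w →
      SFree m {z | T.value c z ≠ 0} → ∀ Z : Finset (V → α), (∀ x ∈ Z, T.value c x ≠ 0) →
      2 ^ (Fintype.card V / (16 * N)) * Z.card ≤ 2 * Fintype.card (V → α) := by
  obtain ⟨d, hd⟩ : ∃ d, d = max w 1 := ⟨_, rfl⟩
  have hd1 : 1 ≤ d := by rw [hd]; exact le_max_right _ _
  obtain ⟨N, hN1, hN⟩ := blocks α m (d * (d * d)) 2 (Nat.mul_pos hd1 (Nat.mul_pos hd1 hd1))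
    (by norm_num)
  refine ⟨N, hN1, ?_⟩
  intro V K W _ _ _ _ T c h1 hW hS Z hZ
  rcases Z.eq_empty_or_nonempty with hZ0 | ⟨z0, hz0⟩
  · subst hZ0
    simp
  have hWn : Nonempty W := by
    by_contra hW
    rw [not_nonempty_iff] at hW
    apply hZ z0 hz0
    unfold Net.value
    exact Finset.sum_eq_zero (fun k _ => (hW.false k).elim)
  obtain ⟨T', g1, g2, -⟩ := exists_ext T h1
  have hval : ∀ z, T'.value c z = T.value c z := by
    intro z
    unfold Net.value
    rw [g2]
  have hRk : ∀ A ∈ cutsv T', Rk d (fun z => T'.value c z) A := by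
    intro A hA
    exact rk_mono (hW.trans (by rw [hd]; exact le_max_left _ _))
      (rk_of_cut (cutsv_cut T' c (fun v => (g1 v).le) A hA))
  obtain ⟨n, hn⟩ : ∃ n, n = Fintype.card V := ⟨_, rfl⟩
  obtain ⟨q, hq⟩ : ∃ q, q = 2 * n / (4 * N) := ⟨_, rfl⟩
  have hq1 : 4 * N * q ≤ 2 * n := by rw [hq]; exact Nat.mul_div_le _ _
  have hq2 : 2 * n < 4 * N * (q + 1) := by
    have := Nat.lt_mul_div_succ (2 * n) (show 0 < 4 * N by omega)
    rwa [← hq] at this
  obtain ⟨P, hP1, hP2, hP3⟩ := exists_parts hd1 (univ : Finset V) (θ := 4 * N) (t := q + 2)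
    (by omega) T' g1 hRk (by
      rw [card_univ, ← hn]
      have e : 4 * N * (q + 2) = 4 * N * (q + 1) + 4 * N := by ring
      omega)
  obtain ⟨I, hI⟩ : ∃ I : Finset (Fin (q + 2)), I = univ.filter fun j => N ≤ (P j).card := ⟨_, rfl⟩
  have h2 := hN V K (fun z => T'.value c z) (Fin (q + 2)) P I hP2
    (fun j hj => by rw [hI, mem_filter] at hj; exact hj.2) (fun j _ => (hP1 j).2.1)
    (by simpa only [hval] using hS) Z (fun x hx => by rw [hval]; exact hZ x hx)
  -- the number of the large parts
  have h3 : n ≤ 16 * N * (I.card + 1) := by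
    have h4 : n ≤ ∑ j, (P j).card := by
      rw [hn, ← card_univ]
      refine (card_le_card ?_).trans (card_biUnion_le (s := univ) (t := P))
      intro v _
      obtain ⟨j, hj⟩ := hP3 v
      exact mem_biUnion.2 ⟨j, mem_univ _, hj⟩
    have h5 : ∑ j, (P j).card ≤ I.card * (8 * N) + (q + 2) * N := by
      rw [← sum_filter_add_sum_filter_not univ (fun j => N ≤ (P j).card)]
      refine Nat.add_le_add ?_ ?_
      · rw [hI]
        refine sum_le_card_nsmul _ _ _ fun j _ => ?_
        have := (hP1 j).2.2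
        rw [univ_inter] at this
        omega
      · calc ∑ j ∈ univ.filter (fun j => ¬ N ≤ (P j).card), (P j).card
            ≤ (univ.filter (fun j => ¬ N ≤ (P j).card)).card * N := by
              refine sum_le_card_nsmul _ _ _ fun j hj => ?_
              rw [mem_filter] at hj
              omega
          _ ≤ (q + 2) * N := by
              refine Nat.mul_le_mul_right _ ?_
              calc _ ≤ (univ : Finset (Fin (q + 2))).card := card_le_univ _
                _ = q + 2 := by simp
    have e1 : 2 * ((q + 2) * N) ≤ n + 4 * N := by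
      have e : 4 * ((q + 2) * N) = 4 * N * q + 8 * N := by ring
      omega
    have e2 : 16 * N * (I.card + 1) = 2 * (I.card * (8 * N)) + 16 * N := by ring
    omega
  have h6 : n / (16 * N) ≤ I.card + 1 := by
    refine Nat.div_le_of_le_mul ?_
    exact h3
  rw [← hn]
  calc 2 ^ (n / (16 * N)) * Z.card ≤ 2 ^ (I.card + 1) * Z.card :=
        Nat.mul_le_mul_right _ (Nat.pow_le_pow_right (by norm_num) h6)
    _ = 2 * (2 ^ I.card * Z.card) := by ring
    _ ≤ 2 * Fintype.card (V → α) := Nat.mul_le_mul_left _ h2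

/-- The set `A` of words is recognized by a tree tensor network `T` of bond dimension at most `w`, over
some field, that reads every position at most once: the elements of `A` are the words with a nonzero
value. -/
def Recog {V α : Type} (w : ℕ) (A : Set (V → α)) : Prop :=
  ∃ (K W : Type) (_ : Field K) (_ : Fintype W) (T : Net K V α W) (a : W → K),
    (∀ v, T.reads v ≤ 1) ∧ Fintype.card W ≤ w ∧ ∀ x, T.value a x ≠ 0 ↔ x ∈ A

theorem SFree.mono {V α : Type} {m : ℕ} {S S' : Set (V → α)} (h : SFree m S) (hS : S' ⊆ S) :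
    SFree m S' := by
  intro U hU
  obtain ⟨x, hx⟩ := h U hU
  exact ⟨x, fun h' => hx (hS h')⟩

/-- The same with real exponents, for a union of `M` recognized sets. -/
theorem net_real (α : Type) [Fintype α] [Nontrivial α] (m w : ℕ) : ∃ c C : ℝ, 0 < c ∧ 0 < C ∧
    ∀ (V : Type) [Fintype V] [DecidableEq V] (M : ℕ) (A : Finset (V → α))
      (B : Fin M → Set (V → α)), SFree m (A : Set (V → α)) → (∀ x, x ∈ A ↔ ∃ i, x ∈ B i) →
      (∀ i, Recog w (B i)) →
      (A.card : ℝ) ≤ C * M * ((Fintype.card α : ℝ) ^ Fintype.card V) ^ (1 - c) := by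
  classical
  obtain ⟨N, hN1, hN⟩ := net_le α m w
  have hq : (1 : ℝ) < Fintype.card α := by exact_mod_cast Fintype.one_lt_card (α := α)
  have hq0 : (0 : ℝ) < Fintype.card α := by linarith
  have hlq : 0 < Real.log (Fintype.card α) := Real.log_pos hq
  have hN0 : (0 : ℝ) < N := by exact_mod_cast hN1
  have hl2 : 0 < Real.log 2 := Real.log_pos (by norm_num)
  refine ⟨Real.log 2 / (16 * N * Real.log (Fintype.card α)), 4, by positivity, by norm_num, ?_⟩
  intro V _ _ M A B hA hAB hB
  obtain ⟨Q, hQ⟩ : ∃ Q : ℝ, Q = (Fintype.card α : ℝ) ^ Fintype.card V := ⟨_, rfl⟩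
  have hQ0 : 0 < Q := by rw [hQ]; positivity
  have hQc : (Fintype.card (V → α) : ℝ) = Q := by
    rw [hQ, Fintype.card_fun]
    push_cast
    rfl
  have key : ∀ i, ((univ.filter fun x => x ∈ B i).card : ℝ) ≤
      4 * Q ^ (1 - Real.log 2 / (16 * N * Real.log (Fintype.card α))) := by
    intro i
    obtain ⟨K, W, _, _, T, a, h1, h2, h3⟩ := hB i
    have h4 := hN V K W T a h1 h2 (hA.mono fun x hx => by
      rw [mem_coe, hAB]
      exact ⟨i, (h3 x).1 hx⟩) (univ.filter fun x => x ∈ B i) (fun x hx => by
        rw [mem_filter] at hx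
        exact (h3 x).2 hx.2)
    have h5 : (2 : ℝ) ^ (Fintype.card V / (16 * N)) *
        ((univ.filter fun x => x ∈ B i).card : ℝ) ≤ 2 * Q := by
      rw [← hQc]
      exact_mod_cast h4
    have h6 : Q ^ (Real.log 2 / (16 * N * Real.log (Fintype.card α))) ≤
        2 * (2 : ℝ) ^ (Fintype.card V / (16 * N)) := by
      have e1 : Q ^ (Real.log 2 / (16 * N * Real.log (Fintype.card α))) =
          (2 : ℝ) ^ ((Fintype.card V : ℝ) / (16 * N)) := by
        rw [Real.rpow_def_of_pos hQ0, Real.rpow_def_of_pos (by norm_num), hQ, Real.log_pow]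
        congr 1
        field_simp
      rw [e1]
      have e2 : (Fintype.card V : ℝ) / (16 * N) ≤ ((Fintype.card V / (16 * N) : ℕ) : ℝ) + 1 := by
        rw [div_le_iff₀ (by positivity)]
        have e3 : Fintype.card V < 16 * N * (Fintype.card V / (16 * N) + 1) :=
          Nat.lt_mul_div_succ _ (by omega)
        have e4 : (Fintype.card V : ℝ) ≤ 16 * N * (((Fintype.card V / (16 * N) : ℕ) : ℝ) + 1) := by
          exact_mod_cast e3.le
        linarith
      calc (2 : ℝ) ^ ((Fintype.card V : ℝ) / (16 * N))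
          ≤ (2 : ℝ) ^ (((Fintype.card V / (16 * N) : ℕ) : ℝ) + 1) :=
            Real.rpow_le_rpow_of_exponent_le (by norm_num) e2
        _ = 2 * (2 : ℝ) ^ (Fintype.card V / (16 * N)) := by
            rw [Real.rpow_add (by norm_num), Real.rpow_one, Real.rpow_natCast]
            ring
    have h7 : Q = Q ^ (1 - Real.log 2 / (16 * N * Real.log (Fintype.card α))) *
        Q ^ (Real.log 2 / (16 * N * Real.log (Fintype.card α))) := by
      rw [← Real.rpow_add hQ0]
      simp
    have hp2 : (0 : ℝ) < Q ^ (Real.log 2 / (16 * N * Real.log (Fintype.card α))) :=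
      Real.rpow_pos_of_pos hQ0 _
    have hc0 : (0 : ℝ) ≤ ((univ.filter fun x => x ∈ B i).card : ℝ) := Nat.cast_nonneg _
    refine le_of_mul_le_mul_right ?_ hp2
    calc ((univ.filter fun x => x ∈ B i).card : ℝ) *
          Q ^ (Real.log 2 / (16 * N * Real.log (Fintype.card α)))
        ≤ ((univ.filter fun x => x ∈ B i).card : ℝ) *
          (2 * (2 : ℝ) ^ (Fintype.card V / (16 * N))) := mul_le_mul_of_nonneg_left h6 hc0
      _ = 2 * ((2 : ℝ) ^ (Fintype.card V / (16 * N)) *
          ((univ.filter fun x => x ∈ B i).card : ℝ)) := by ring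
      _ ≤ 2 * (2 * Q) := mul_le_mul_of_nonneg_left h5 (by norm_num)
      _ = 4 * Q := by ring
      _ = _ := by
          conv_lhs => rw [h7]
          ring
  have hsub : A ⊆ univ.biUnion fun i => univ.filter fun x => x ∈ B i := by
    intro x hx
    obtain ⟨i, hi⟩ := (hAB x).1 hx
    exact mem_biUnion.2 ⟨i, mem_univ _, mem_filter.2 ⟨mem_univ _, hi⟩⟩
  rw [← hQ]
  calc (A.card : ℝ) ≤ ((∑ i : Fin M, (univ.filter fun x => x ∈ B i).card : ℕ) : ℝ) := by
        exact_mod_cast (card_le_card hsub).trans card_biUnion_le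
    _ = ∑ i : Fin M, ((univ.filter fun x => x ∈ B i).card : ℝ) := by push_cast; rfl
    _ ≤ ∑ _i : Fin M, 4 * Q ^ (1 - Real.log 2 / (16 * N * Real.log (Fintype.card α))) :=
        sum_le_sum fun i _ => key i
    _ = _ := by
        rw [sum_const, card_univ, Fintype.card_fin, nsmul_eq_mul]
        ring

/-- Every set of words is recognized by a network whose bond dimension is the number of its
elements. -/
theorem recog_card {V α : Type} [Fintype V] [DecidableEq V] [Nonempty V] [Fintype α]
    [DecidableEq α] (A : Finset (V → α)) : Recog A.card (A : Set (V → α)) := by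
  classical
  obtain ⟨T, -, h2, -, h4⟩ := exists_product (K := ℚ)
    (fun (v : V) (b : α) (u : A) => if u.1 v = b then (1 : ℚ) else 0)
  refine ⟨ℚ, A, inferInstance, inferInstance, T, fun _ => 1, fun v => (h2 v).le,
    by rw [Fintype.card_coe], fun x => ?_⟩
  have h5 : ∀ u : A, T.eval x u = if u.1 = x then 1 else 0 := by
    intro u
    rw [h4]
    by_cases h : u.1 = x
    · rw [if_pos h]
      exact prod_eq_one fun v _ => if_pos (by rw [h])
    · rw [if_neg h]
      obtain ⟨j, hj⟩ := Function.ne_iff.1 h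
      exact prod_eq_zero (mem_univ j) (if_neg hj)
  unfold Net.value
  simp only [h5, one_mul]
  by_cases hx : x ∈ A
  · rw [sum_eq_single (⟨x, hx⟩ : A)]
    · simp [hx]
    · intro u _ hu
      rw [if_neg]
      intro h
      exact hu (Subtype.ext h)
    · intro h
      exact absurd (mem_univ _) h
  · rw [sum_eq_zero]
    · simp [hx]
    · intro u _
      rw [if_neg]
      intro h
      exact hx (h ▸ u.2)

end Pool.Agent.V11163.LF
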